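import Mathlib

/-!
# Nevanlinna functions, zero counts and pole counts
-/

namespace Pool.Agent.Helper20_Nevanlinna

/-- A Nevanlinna function in the sense of the problem: `m` is meromorphic on `ℂ`, it is analytic
with positive imaginary part on the open upper half plane, and analytic with negative imaginary
part on the open lower half plane. -/
def IsNevanlinna (m : ℂ → ℂ) : Prop :=
  (∀ z : ℂ, MeromorphicAt m z) ∧
  (∀ z : ℂ, 0 < z.im → AnalyticAt ℂ m z ∧ 0 < (m z).im) ∧
  (∀ z : ℂ, z.im < 0 → AnalyticAt ℂ m z ∧ (m z).im < 0)

/-- The number of zeros of the meromorphic function `f` in `U`, counted with multiplicity (the sum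
over `z ∈ U` of the positive part of the order of `f` at `z`). -/
noncomputable def zeroCount (f : ℂ → ℂ) (U : Set ℂ) : ℕ :=
  ∑ᶠ z ∈ U, ((meromorphicOrderAt f z).untop₀).toNat

/-- The number of poles of the meromorphic function `f` in `U`, counted with multiplicity (the sum
over `z ∈ U` of the negative part of the order of `f` at `z`). -/
noncomputable def poleCount (f : ℂ → ℂ) (U : Set ℂ) : ℕ :=
  ∑ᶠ z ∈ U, (-(meromorphicOrderAt f z).untop₀).toNat

end Pool.Agent.Helper20_Nevanlinna
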