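import Mathlib
import Pool.Agent.Helper20_Nevanlinna.Defs

/-!
# Zeros versus poles for sequences of Nevanlinna functions: a counterexample

The problem asks whether `Z_j(U) - P_j(U)` stays bounded, where `P_j(U)` is the number of poles in
`U` of the Nevanlinna function `m_j` and `Z_j(U)` is the number of zeros of `m_j - g` in `U`, the
poles becoming infinitely dense on an interval `I`.

We disprove this.  The function `g` is
`g(z) = sum_i 2^(-i) / (-(i+1) - z)`, real analytic on `(-1/2, oo)` and itself a Nevanlinna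
function.  The functions `m_j` are rational: the poles of `g` with slightly changed positive
weights (the change is an interpolant, obtained by Lagrange interpolation, that alternates in sign
in every cell of the grid `(1/(j+1)) Z`), plus tiny positive masses at the grid points in `[0,1]`.
In every cell of the grid `m_j - g` goes from `-oo` up to a positive value, down to a negative
value and up to `+oo`, so it has three zeros there, while there is only one pole per cell.
-/
open Filter Topology Set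

namespace Pool.Agent.Helper20_Nevanlinna

/-- the rational function with simple poles at the points of S -/
noncomputable def ratl (S : Finset ℝ) (w : ℝ → ℝ) (z : ℂ) : ℂ :=
  ∑ p ∈ S, (w p : ℂ) / ((p : ℂ) - z)

lemma ratl_analyticAt (S : Finset ℝ) (w : ℝ → ℝ) (z : ℂ) (hz : ∀ p ∈ S, (p : ℂ) ≠ z) :
    AnalyticAt ℂ (ratl S w) z := by
  unfold ratl
  apply Finset.analyticAt_fun_sum
  intro p hp
  apply AnalyticAt.fun_div analyticAt_const (analyticAt_const.fun_sub analyticAt_id)
  exact sub_ne_zero.mpr (hz p hp)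

lemma ratl_meromorphicAt (S : Finset ℝ) (w : ℝ → ℝ) (z : ℂ) :
    MeromorphicAt (ratl S w) z := by
  unfold ratl
  apply MeromorphicAt.fun_sum
  intro p _
  exact (MeromorphicAt.const _ _).fun_div ((MeromorphicAt.const _ _).fun_sub (MeromorphicAt.id _))

lemma term_im (c p : ℝ) (z : ℂ) : ((c : ℂ) / ((p : ℂ) - z)).im = c * z.im / Complex.normSq ((p : ℂ) - z) := by
  rw [Complex.div_im]
  simp
  ring

lemma ratl_im (S : Finset ℝ) (w : ℝ → ℝ) (z : ℂ) :
    (ratl S w z).im = z.im * ∑ p ∈ S, w p / Complex.normSq ((p : ℂ) - z) := by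
  unfold ratl
  rw [Complex.im_sum, Finset.mul_sum]
  apply Finset.sum_congr rfl
  intro p _
  rw [term_im]; ring

lemma ratl_nevanlinna (S : Finset ℝ) (w : ℝ → ℝ) (hS : S.Nonempty) (hw : ∀ p ∈ S, 0 < w p) :
    IsNevanlinna (ratl S w) := by
  have hne : ∀ z : ℂ, z.im ≠ 0 → ∀ p : ℝ, (p : ℂ) ≠ z := by
    intro z hz p h
    apply hz; rw [← h]; simp
  have key : ∀ z : ℂ, z.im ≠ 0 → 0 < ∑ p ∈ S, w p / Complex.normSq ((p : ℂ) - z) := by
    intro z hz
    apply Finset.sum_pos _ hS
    intro p hp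
    apply div_pos (hw p hp)
    exact Complex.normSq_pos.mpr (sub_ne_zero.mpr (hne z hz p))
  refine ⟨fun z => ratl_meromorphicAt S w z, ?_, ?_⟩
  · intro z hz
    refine ⟨ratl_analyticAt S w z (fun p _ => hne z hz.ne' p), ?_⟩
    rw [ratl_im]
    exact mul_pos hz (key z hz.ne')
  · intro z hz
    refine ⟨ratl_analyticAt S w z (fun p _ => hne z hz.ne p), ?_⟩
    rw [ratl_im]
    exact mul_neg_of_neg_of_pos hz (key z hz.ne)

/-- order at a simple pole -/
lemma order_simple_pole (f h : ℂ → ℂ) (p c : ℂ) (hc : c ≠ 0) (hh : AnalyticAt ℂ h p)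
    (hf : ∀ᶠ z in 𝓝[≠] p, f z = c / (p - z) + h z) : meromorphicOrderAt f p = (-1 : ℤ) := by
  have hmer : MeromorphicAt f p := by
    have h1 : MeromorphicAt (fun z => c / (p - z) + h z) p :=
      ((MeromorphicAt.const _ _).fun_div
        ((MeromorphicAt.const _ _).fun_sub (MeromorphicAt.id _))).fun_add hh.meromorphicAt
    exact h1.congr (hf.mono fun z hz => hz.symm)
  rw [meromorphicOrderAt_eq_int_iff hmer]
  refine ⟨fun z => -c + (z - p) * h z, ?_, ?_, ?_⟩
  · exact analyticAt_const.fun_add ((analyticAt_id.fun_sub analyticAt_const).fun_mul hh)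
  · simpa using hc
  · have : ∀ᶠ z in 𝓝[≠] p, z ≠ p := eventually_mem_nhdsWithin
    filter_upwards [hf, this] with z hz hzp
    rw [hz]
    have h1 : z - p ≠ 0 := sub_ne_zero.mpr hzp
    have h2 : p - z ≠ 0 := sub_ne_zero.mpr hzp.symm
    simp only [zpow_neg, zpow_one, smul_eq_mul]
    have h3 : p - z = -(z - p) := by ring
    rw [h3]
    field_simp

lemma ratl_order_pole (S : Finset ℝ) (w : ℝ → ℝ) (g : ℂ → ℂ) (p : ℝ) (hp : p ∈ S) (hw : w p ≠ 0)
    (hg : AnalyticAt ℂ g p) :
    meromorphicOrderAt (fun z => ratl S w z - g z) (p : ℂ) = (-1 : ℤ) := by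
  classical
  apply order_simple_pole _ (fun z => ratl (S.erase p) w z - g z) p (w p)
  · exact_mod_cast hw
  · apply AnalyticAt.fun_sub _ hg
    apply ratl_analyticAt
    intro q hq h
    have : q = p := by exact_mod_cast h
    exact (Finset.ne_of_mem_erase hq) this
  · filter_upwards with z
    unfold ratl
    rw [← Finset.add_sum_erase S _ hp]
    ring


/-- the domain -/
def Dom : Set ℂ := {z : ℂ | -1 / 2 < z.re}

lemma Dom_open : IsOpen Dom := isOpen_lt continuous_const Complex.continuous_re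

lemma Dom_conn : IsPreconnected Dom := by
  have : Convex ℝ Dom := convex_halfSpace_re_gt _
  exact this.isPreconnected

noncomputable def node (i : ℕ) : ℝ := -((i : ℝ) + 1)

noncomputable def cf (i : ℕ) : ℝ := (1 / 2 : ℝ) ^ i

noncomputable def gfun (z : ℂ) : ℂ := ∑' i : ℕ, (cf i : ℂ) / ((node i : ℂ) - z)

lemma node_sub_ne (i : ℕ) (z : ℂ) (hz : z ∈ Dom) : (node i : ℂ) - z ≠ 0 := by
  intro h
  have h1 : ((node i : ℂ) - z).re = 0 := by rw [h]; simp
  have h2 : -1 / 2 < z.re := hz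
  simp [node] at h1
  have : (0:ℝ) ≤ i := Nat.cast_nonneg i
  linarith

lemma norm_term_le (i : ℕ) (z : ℂ) (hz : z ∈ Dom) :
    ‖(cf i : ℂ) / ((node i : ℂ) - z)‖ ≤ 2 * (1 / 2 : ℝ) ^ i := by
  rw [norm_div]
  have h1 : ‖(cf i : ℂ)‖ = (1 / 2 : ℝ) ^ i := by
    rw [Complex.norm_real, cf, Real.norm_of_nonneg (by positivity)]
  have h2 : (1 / 2 : ℝ) ≤ ‖(node i : ℂ) - z‖ := by
    have h3 : |((node i : ℂ) - z).re| ≤ ‖(node i : ℂ) - z‖ := Complex.abs_re_le_norm _
    have h4 : -1 / 2 < z.re := hz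
    have h5 : ((node i : ℂ) - z).re = node i - z.re := by simp
    have h6 : (0:ℝ) ≤ i := Nat.cast_nonneg i
    have h7 : (1 / 2 : ℝ) ≤ |((node i : ℂ) - z).re| := by
      rw [h5, abs_of_neg]
      · unfold node; linarith
      · unfold node; linarith
    linarith
  rw [h1, div_le_iff₀ (by linarith)]
  have : (0:ℝ) ≤ (1 / 2 : ℝ) ^ i := by positivity
  nlinarith

lemma summable_bound : Summable (fun i : ℕ => 2 * (1 / 2 : ℝ) ^ i) :=
  (summable_geometric_of_lt_one (by norm_num) (by norm_num)).mul_left 2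

lemma gfun_analytic : AnalyticOnNhd ℂ gfun Dom := by
  apply DifferentiableOn.analyticOnNhd _ Dom_open
  apply Complex.differentiableOn_tsum_of_summable_norm summable_bound _ Dom_open
  · intro i w hw; exact norm_term_le i w hw
  · intro i
    apply DifferentiableOn.fun_div (differentiableOn_const _)
    · exact (differentiableOn_const _).fun_sub differentiableOn_id
    · intro z hz; exact node_sub_ne i z hz

/-- the real series -/
noncomputable def greal (x : ℝ) : ℝ := ∑' i : ℕ, cf i / (node i - x)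

lemma gfun_ofReal (x : ℝ) : gfun (x : ℂ) = (greal x : ℂ) := by
  unfold gfun greal
  rw [Complex.ofReal_tsum]
  apply tsum_congr
  intro i
  push_cast
  rfl

lemma ratl_ofReal (S : Finset ℝ) (w : ℝ → ℝ) (x : ℝ) :
    ratl S w (x : ℂ) = ((∑ p ∈ S, w p / (p - x) : ℝ) : ℂ) := by
  unfold ratl
  push_cast
  rfl


lemma poleCount_ratl (S : Finset ℝ) (w : ℝ → ℝ) (hw : ∀ p ∈ S, 0 < w p) (U : Set ℂ)
    (T : Finset ℝ) (hT : ∀ p : ℝ, p ∈ T ↔ p ∈ S ∧ (p : ℂ) ∈ U) :
    poleCount (ratl S w) U = T.card := by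
  classical
  have hS1 : ∀ p ∈ S, meromorphicOrderAt (ratl S w) (p : ℂ) = (-1 : ℤ) := by
    intro p hp
    have := ratl_order_pole S w (fun _ => 0) p hp (hw p hp).ne' analyticAt_const
    simpa using this
  have hS2 : ∀ z : ℂ, (∀ p ∈ S, (p : ℂ) ≠ z) → 0 ≤ meromorphicOrderAt (ratl S w) z := by
    intro z hz
    exact (ratl_analyticAt S w z hz).meromorphicOrderAt_nonneg
  set φ : ℂ → ℕ := fun z => (-(meromorphicOrderAt (ratl S w) z).untop₀).toNat with hφ
  have hφ1 : ∀ p ∈ S, φ (p : ℂ) = 1 := by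
    intro p hp
    simp only [hφ]
    rw [hS1 p hp]
    rfl
  have hφ0 : ∀ z : ℂ, (∀ p ∈ S, (p : ℂ) ≠ z) → φ z = 0 := by
    intro z hz
    simp only [hφ]
    have h := hS2 z hz
    apply Int.toNat_of_nonpos
    have : 0 ≤ (meromorphicOrderAt (ratl S w) z).untop₀ := by
      cases hcase : meromorphicOrderAt (ratl S w) z with
      | top => simp
      | coe n =>
        rw [hcase] at h
        simpa using h
    linarith
  unfold poleCount
  rw [finsum_mem_eq_sum_of_inter_support_eq φ (s := U) (t := T.image (fun p : ℝ => (p : ℂ)))]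
  · rw [Finset.sum_image]
    · rw [Finset.sum_congr rfl (fun p hp => hφ1 p ((hT p).1 hp).1)]
      simp
    · intro a _ b _ hab
      exact Complex.ofReal_injective hab
  · ext z
    simp only [Set.mem_inter_iff, Function.mem_support, Finset.coe_image, Set.mem_image,
      Finset.mem_coe]
    constructor
    · rintro ⟨hzU, hz⟩
      refine ⟨?_, hz⟩
      by_contra hcon
      apply hz
      apply hφ0
      intro p hp h
      apply hcon
      exact ⟨p, (hT p).2 ⟨hp, h ▸ hzU⟩, h⟩
    · rintro ⟨⟨p, hp, rfl⟩, hz⟩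
      exact ⟨((hT p).1 hp).2, hz⟩

lemma card_le_finsum (φ : ℂ → ℕ) (U : Set ℂ) (hfin : (U ∩ Function.support φ).Finite)
    (A : Finset ℂ) (hAU : ∀ z ∈ A, z ∈ U) (hA : ∀ z ∈ A, 1 ≤ φ z) :
    A.card ≤ ∑ᶠ z ∈ U, φ z := by
  rw [← finsum_mem_inter_support, finsum_mem_eq_finite_toFinset_sum φ hfin]
  have hsub : A ⊆ hfin.toFinset := by
    intro z hz
    rw [Set.Finite.mem_toFinset]
    refine ⟨hAU z hz, ?_⟩
    have := hA z hz
    simp only [Function.mem_support]
    omega
  calc A.card = ∑ z ∈ A, 1 := by simp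
    _ ≤ ∑ z ∈ A, φ z := Finset.sum_le_sum hA
    _ ≤ _ := Finset.sum_le_sum_of_subset hsub

lemma one_le_of_zero (f : ℂ → ℂ) (z : ℂ) (hf : AnalyticAt ℂ f z) (h0 : f z = 0)
    (htop : meromorphicOrderAt f z ≠ ⊤) : 1 ≤ ((meromorphicOrderAt f z).untop₀).toNat := by
  rw [hf.meromorphicOrderAt_eq] at htop ⊢
  have h1 : analyticOrderAt f z ≠ 0 := hf.analyticOrderAt_ne_zero.mpr h0
  rcases hcase : analyticOrderAt f z with _ | n
  · exfalso; apply htop
    rw [hcase]; rfl
  · have hn : n ≠ 0 := by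
      intro hn; apply h1; rw [hcase, hn]; rfl
    have : (WithTop.untop₀ (ENat.map (fun a : ℕ => (a : ℤ)) (some n : ℕ∞))) = (n : ℤ) := rfl
    rw [this]
    simp
    omega

lemma finite_support (f : ℂ → ℂ) (U : Set ℂ) (hf : MeromorphicOn f Dom)
    (hUb : Bornology.IsBounded U) (hUD : closure U ⊆ Dom) :
    {z ∈ U | (meromorphicOrderAt f z).untop₀ ≠ 0}.Finite := by
  have hK : IsCompact (closure U) := hUb.isCompact_closure
  have hfK : MeromorphicOn f (closure U) := fun z hz => hf z (hUD hz)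
  have := (MeromorphicOn.divisor f (closure U)).finiteSupport hK
  apply this.subset
  intro z hz
  rw [Function.mem_support, MeromorphicOn.divisor_apply hfK (subset_closure hz.1)]
  exact hz.2


lemma node_inj : Function.Injective node := by
  intro a b h
  have : (a : ℝ) = b := by unfold node at h; linarith
  exact_mod_cast this

lemma exists_coeffs {ι : Type*} [DecidableEq ι] (S : Finset ι) (t : ι → ℝ) (ht : Set.InjOn t S)
    (hpos : ∀ k ∈ S, -1 < t k) (s : ι → ℝ) :
    ∃ r : ℕ → ℝ, ∀ k ∈ S, ∑ i ∈ Finset.range S.card, r i / (node i - t k) = s k := by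
  classical
  set n := S.card with hn
  let N : Polynomial ℝ := Lagrange.nodal (Finset.range n) node
  let Q : Polynomial ℝ := Lagrange.interpolate S t (fun k => s k * N.eval (t k))
  have hQd : Q.degree < n := by
    have := Lagrange.degree_interpolate_lt (fun k => s k * N.eval (t k)) ht
    simpa [Q, hn] using this
  have hQ' : Q = Lagrange.interpolate (Finset.range n) node (fun i => Q.eval (node i)) := by
    apply Lagrange.eq_interpolate
    · exact node_inj.injOn
    · simpa using hQd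
  refine ⟨fun i => - (Lagrange.nodalWeight (Finset.range n) node i * Q.eval (node i)), ?_⟩
  intro k hk
  have hne : ∀ i ∈ Finset.range n, t k ≠ node i := by
    intro i _ h
    have h1 := hpos k hk
    rw [h] at h1
    unfold node at h1
    have : (0:ℝ) ≤ i := Nat.cast_nonneg i
    linarith
  have hNk : N.eval (t k) ≠ 0 := by
    simp only [N, Lagrange.eval_nodal]
    apply Finset.prod_ne_zero_iff.mpr
    intro i hi
    exact sub_ne_zero.mpr (hne i hi)
  have h1 : Q.eval (t k) = s k * N.eval (t k) := by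
    simp only [Q]
    rw [Lagrange.eval_interpolate_at_node _ ht hk]
  have h2 : Q.eval (t k) = N.eval (t k) * ∑ i ∈ Finset.range n,
      Lagrange.nodalWeight (Finset.range n) node i * (t k - node i)⁻¹ * Q.eval (node i) := by
    conv_lhs => rw [hQ']
    rw [Lagrange.eval_interpolate_not_at_node _ hne]
  have h3 : s k = ∑ i ∈ Finset.range n,
      Lagrange.nodalWeight (Finset.range n) node i * (t k - node i)⁻¹ * Q.eval (node i) := by
    have : N.eval (t k) * s k = N.eval (t k) * ∑ i ∈ Finset.range n,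
      Lagrange.nodalWeight (Finset.range n) node i * (t k - node i)⁻¹ * Q.eval (node i) := by
      rw [← h2, h1]; ring
    exact mul_left_cancel₀ hNk this
  rw [h3]
  apply Finset.sum_congr rfl
  intro i hi
  have h4 : t k - node i ≠ 0 := sub_ne_zero.mpr (hne i hi)
  have h5 : node i - t k ≠ 0 := by
    intro h; apply h4; linarith
  have h6 : node i - t k = -(t k - node i) := by ring
  rw [h6]
  field_simp


lemma three_zeros (q q' t1 t2 η : ℝ) (hη : 0 < η) (h1 : q < t1) (h2 : t1 < t2) (h3 : t2 < q')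
    (h : ℝ → ℝ) (hc : ContinuousOn h (Icc q q')) (f : ℝ → ℝ)
    (hf : ∀ x ∈ Ioo q q', f x = η / (q - x) + η / (q' - x) + h x)
    (hp : 0 < f t1) (hn : f t2 < 0) :
    ∃ z1 ∈ Ioo q t1, ∃ z2 ∈ Ioo t1 t2, ∃ z3 ∈ Ioo t2 q', f z1 = 0 ∧ f z2 = 0 ∧ f z3 = 0 := by
  set ψ : ℝ → ℝ := fun x => -(η * (q' - x)) + η * (x - q) + (x - q) * (q' - x) * h x with hψ
  have hψf : ∀ x ∈ Ioo q q', ψ x = (x - q) * (q' - x) * f x := by
    intro x hx
    rw [hf x hx]
    have ha : q - x ≠ 0 := by have := hx.1; intro h; linarith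
    have hb : q' - x ≠ 0 := by have := hx.2; intro h; linarith
    simp only [hψ]
    have hc : x - q = -(q - x) := by ring
    rw [hc]
    field_simp
    ring
  have hψc : ContinuousOn ψ (Icc q q') := by
    apply ContinuousOn.add
    · exact (by fun_prop : Continuous fun x : ℝ => -(η * (q' - x)) + η * (x - q)).continuousOn
    · exact ((by fun_prop : Continuous fun x : ℝ => (x - q) * (q' - x)).continuousOn).mul hc
  have hpos : ∀ x ∈ Ioo q q', 0 < (x - q) * (q' - x) := by
    intro x hx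
    exact mul_pos (by linarith [hx.1]) (by linarith [hx.2])
  have ht1 : t1 ∈ Ioo q q' := ⟨h1, by linarith⟩
  have ht2 : t2 ∈ Ioo q q' := ⟨by linarith, h3⟩
  have e0 : ψ q < 0 := by
    simp only [hψ]
    have : 0 < η * (q' - q) := mul_pos hη (by linarith)
    nlinarith
  have e1 : 0 < ψ t1 := by rw [hψf t1 ht1]; exact mul_pos (hpos t1 ht1) hp
  have e2 : ψ t2 < 0 := by rw [hψf t2 ht2]; exact mul_neg_of_pos_of_neg (hpos t2 ht2) hn
  have e3 : 0 < ψ q' := by
    simp only [hψ]
    have : 0 < η * (q' - q) := mul_pos hη (by linarith)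
    nlinarith
  have zero_of : ∀ x ∈ Ioo q q', ψ x = 0 → f x = 0 := by
    intro x hx h0
    rw [hψf x hx] at h0
    rcases mul_eq_zero.mp h0 with h0 | h0
    · exact absurd h0 (hpos x hx).ne'
    · exact h0
  obtain ⟨z1, hz1, hz1'⟩ := intermediate_value_Ioo h1.le
    (hψc.mono (Icc_subset_Icc le_rfl ht1.2.le)) (⟨e0, e1⟩ : (0:ℝ) ∈ Ioo (ψ q) (ψ t1))
  obtain ⟨z2, hz2, hz2'⟩ := intermediate_value_Ioo' h2.le
    (hψc.mono (Icc_subset_Icc ht1.1.le ht2.2.le)) (⟨e2, e1⟩ : (0:ℝ) ∈ Ioo (ψ t2) (ψ t1))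
  obtain ⟨z3, hz3, hz3'⟩ := intermediate_value_Ioo h3.le
    (hψc.mono (Icc_subset_Icc ht2.1.le le_rfl)) (⟨e2, e3⟩ : (0:ℝ) ∈ Ioo (ψ t2) (ψ q'))
  refine ⟨z1, hz1, z2, hz2, z3, hz3, ?_, ?_, ?_⟩
  · exact zero_of z1 ⟨hz1.1, by linarith [hz1.2]⟩ hz1'
  · exact zero_of z2 ⟨by linarith [hz2.1], by linarith [hz2.2]⟩ hz2'
  · exact zero_of z3 ⟨by linarith [hz3.1], hz3.2⟩ hz3'

lemma greal_cont : ContinuousOn greal (Icc 0 1) := by
  have h1 : ContinuousOn gfun Dom := gfun_analytic.continuousOn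
  have h2 : ContinuousOn (fun x : ℝ => gfun (x : ℂ)) (Icc (0:ℝ) 1) := by
    apply h1.comp Complex.continuous_ofReal.continuousOn
    intro x hx
    change -1 / 2 < ((x : ℂ)).re
    simp only [Complex.ofReal_re]
    linarith [hx.1]
  have h3 : greal = fun x : ℝ => (gfun (x : ℂ)).re := by
    funext x
    rw [gfun_ofReal]
    simp
  rw [h3]
  exact Complex.continuous_re.comp_continuousOn h2

lemma abs_term_le (i : ℕ) (x : ℝ) (hx : 0 ≤ x) : |cf i / (node i - x)| ≤ (1 / 2 : ℝ) ^ i := by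
  have h0 : (0:ℝ) ≤ i := Nat.cast_nonneg i
  have h1 : 1 ≤ |node i - x| := by
    rw [abs_of_neg (by unfold node; linarith)]
    unfold node; linarith
  rw [abs_div, div_le_iff₀ (by linarith)]
  have h2 : |cf i| = (1 / 2 : ℝ) ^ i := by rw [cf, abs_of_nonneg (by positivity)]
  rw [h2]
  have : (0:ℝ) ≤ (1 / 2 : ℝ) ^ i := by positivity
  nlinarith

lemma summable_greal (x : ℝ) (hx : 0 ≤ x) : Summable (fun i : ℕ => cf i / (node i - x)) := by
  apply Summable.of_norm_bounded (summable_geometric_of_lt_one (by norm_num : (0:ℝ) ≤ 1/2) (by norm_num))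
  intro i
  exact abs_term_le i x hx

lemma tail_bound (M : ℕ) (x : ℝ) (hx : 0 ≤ x) :
    |(∑ i ∈ Finset.range M, cf i / (node i - x)) - greal x| ≤ 2 * (1 / 2 : ℝ) ^ M := by
  have hs := summable_greal x hx
  have h1 : greal x = (∑ i ∈ Finset.range M, cf i / (node i - x)) +
      ∑' i : ℕ, cf (i + M) / (node (i + M) - x) := by
    unfold greal
    exact (hs.sum_add_tsum_nat_add M).symm
  rw [h1]
  have h2 : (∑ i ∈ Finset.range M, cf i / (node i - x)) - ((∑ i ∈ Finset.range M, cf i / (node i - x)) +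
      ∑' i : ℕ, cf (i + M) / (node (i + M) - x)) = - ∑' i : ℕ, cf (i + M) / (node (i + M) - x) := by ring
  rw [h2, abs_neg]
  have hgeo : HasSum (fun i : ℕ => (1 / 2 : ℝ) ^ (i + M)) (2 * (1 / 2 : ℝ) ^ M) := by
    have := (hasSum_geometric_of_lt_one (by norm_num : (0:ℝ) ≤ 1/2) (by norm_num)).mul_right ((1 / 2 : ℝ) ^ M)
    have e1 : (fun i : ℕ => (1 / 2 : ℝ) ^ (i + M)) = fun i : ℕ => (1 / 2 : ℝ) ^ i * (1 / 2 : ℝ) ^ M := by
      funext i; rw [pow_add]
    have e2 : 2 * (1 / 2 : ℝ) ^ M = (1 - 1 / 2 : ℝ)⁻¹ * (1 / 2 : ℝ) ^ M := by norm_num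
    rw [e1, e2]
    exact this
  have := tsum_of_norm_bounded hgeo (f := fun i : ℕ => cf (i + M) / (node (i + M) - x))
    (fun i => by rw [Real.norm_eq_abs]; exact abs_term_le (i + M) x hx)
  rw [Real.norm_eq_abs] at this
  exact this


/-- grid points -/
noncomputable def grid (j l : ℕ) : ℝ := (l : ℝ) / (j : ℝ)

/-- test points -/
noncomputable def tst (j : ℕ) (k : ℕ × Bool) : ℝ := ((k.1 : ℝ) + (if k.2 then 1 / 3 else 2 / 3)) / (j : ℝ)

lemma tst_inj (j : ℕ) (hj : 0 < j) : Function.Injective (tst j) := by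
  have hj' : (0:ℝ) < j := by exact_mod_cast hj
  rintro ⟨a, x⟩ ⟨b, y⟩ h
  unfold tst at h
  have h1 : (a : ℝ) + (if x then 1 / 3 else 2 / 3) = (b : ℝ) + (if y then 1 / 3 else 2 / 3) := by
    field_simp at h
    exact h
  cases x <;> cases y <;> simp only [Bool.false_eq_true, if_false, if_true] at h1
  · have : (a : ℝ) = b := by linarith
    have : a = b := by exact_mod_cast this
    rw [this]
  · exfalso
    have h2 : 3 * (a : ℝ) + 1 = 3 * b := by linarith
    have h3 : 3 * a + 1 = 3 * b := by exact_mod_cast h2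
    omega
  · exfalso
    have h2 : 3 * (a : ℝ) = 3 * b + 1 := by linarith
    have h3 : 3 * a = 3 * b + 1 := by exact_mod_cast h2
    omega
  · have : (a : ℝ) = b := by linarith
    have : a = b := by exact_mod_cast this
    rw [this]

/-- the real rational functions, in terms of the two index ranges -/
noncomputable def Fr (wt : ℕ → ℝ) (M : ℕ) (η : ℝ) (j : ℕ) (x : ℝ) : ℝ :=
  (∑ i ∈ Finset.range M, wt i / (node i - x)) + ∑ l ∈ Finset.range (j + 1), η / (grid j l - x)

lemma construct (j : ℕ) (hj : 0 < j) :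
    ∃ (wt : ℕ → ℝ) (M : ℕ) (η : ℝ), (∀ i, 0 < wt i) ∧ 0 < η ∧
      ∀ l, l < j → 0 < Fr wt M η j (tst j (l, true)) - greal (tst j (l, true)) ∧
        Fr wt M η j (tst j (l, false)) - greal (tst j (l, false)) < 0 := by
  have hj' : (0:ℝ) < j := by exact_mod_cast hj
  set S : Finset (ℕ × Bool) := (Finset.range j) ×ˢ Finset.univ with hS
  obtain ⟨r, hr⟩ := exists_coeffs S (tst j) (tst_inj j hj).injOn
    (by
      rintro ⟨l, b⟩ _
      unfold tst
      have h0 : (0:ℝ) ≤ ((l : ℝ) + (if b then 1 / 3 else 2 / 3)) / (j : ℝ) := by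
        apply div_nonneg _ hj'.le
        split_ifs <;> positivity
      linarith)
    (fun k => if k.2 then 1 else -1)
  set n := S.card with hn
  set B : ℝ := ∑ i ∈ Finset.range n, |r i| with hB
  have hB0 : 0 ≤ B := Finset.sum_nonneg (fun _ _ => abs_nonneg _)
  set ε : ℝ := (1 / 2 : ℝ) ^ n / (2 * (B + 1)) with hε
  have hε0 : 0 < ε := by positivity
  set wt : ℕ → ℝ := fun i => if i < n then cf i + ε * r i else cf i with hwt
  have hcf : ∀ i, 0 < cf i := by intro i; unfold cf; positivity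
  have hwt0 : ∀ i, 0 < wt i := by
    intro i
    simp only [hwt]
    split_ifs with hi
    · have h1 : |r i| ≤ B := Finset.single_le_sum (f := fun i => |r i|) (fun _ _ => abs_nonneg _)
        (Finset.mem_range.mpr hi)
      have h2 : (1 / 2 : ℝ) ^ n ≤ cf i := by
        unfold cf
        exact pow_le_pow_of_le_one (by norm_num) (by norm_num) hi.le
      have h3 : ε * |r i| < (1 / 2 : ℝ) ^ n := by
        have h4 : ε * |r i| ≤ ε * B := mul_le_mul_of_nonneg_left h1 hε0.le
        have h5 : ε * B < (1 / 2 : ℝ) ^ n := by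
          rw [hε, div_mul_eq_mul_div, div_lt_iff₀ (by positivity)]
          have : (0:ℝ) < (1 / 2 : ℝ) ^ n := by positivity
          nlinarith
        linarith
      have h6 : -(ε * |r i|) ≤ ε * r i := by
        have := neg_abs_le (r i)
        nlinarith
      linarith
    · exact hcf i
  obtain ⟨K, hK⟩ : ∃ K : ℕ, (1 / 2 : ℝ) ^ K < ε / 8 :=
    exists_pow_lt_of_lt_one (by positivity) (by norm_num)
  set M := n + K with hM
  have hMtail : 2 * (1 / 2 : ℝ) ^ M < ε / 4 := by
    have : (1 / 2 : ℝ) ^ M ≤ (1 / 2 : ℝ) ^ K :=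
      pow_le_pow_of_le_one (by norm_num) (by norm_num) (by omega)
    linarith
  set η : ℝ := ε / (4 * (3 * j * (j + 1) + 1)) with hη
  have hη0 : 0 < η := by positivity
  refine ⟨wt, M, η, hwt0, hη0, ?_⟩
  -- main estimate
  have key : ∀ k ∈ S, |(Fr wt M η j (tst j k) - greal (tst j k)) - ε * (if k.2 then 1 else -1)| < ε / 2 := by
    rintro ⟨l, b⟩ hk
    have hl : l < j := by
      rw [hS, Finset.mem_product] at hk
      exact Finset.mem_range.mp hk.1
    set t := tst j (l, b) with ht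
    have ht0 : 0 ≤ t := by
      rw [ht]; unfold tst
      apply div_nonneg _ hj'.le
      split_ifs <;> positivity
    have e1 : ∑ i ∈ Finset.range M, wt i / (node i - t) =
        (∑ i ∈ Finset.range M, cf i / (node i - t)) + ε * ∑ i ∈ Finset.range n, r i / (node i - t) := by
      have : ∀ i ∈ Finset.range M, wt i / (node i - t) =
          cf i / (node i - t) + (if i < n then ε * (r i / (node i - t)) else 0) := by
        intro i _
        simp only [hwt]
        split_ifs
        · ring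
        · ring
      rw [Finset.sum_congr rfl this, Finset.sum_add_distrib, Finset.mul_sum]
      congr 1
      rw [← Finset.sum_filter]
      apply Finset.sum_congr _ (fun _ _ => rfl)
      ext i
      simp only [Finset.mem_filter, Finset.mem_range]
      omega
    have e2 := hr (l, b) hk
    have e3 := tail_bound M t ht0
    have e4 : |∑ l' ∈ Finset.range (j + 1), η / (grid j l' - t)| < ε / 4 := by
      have h1 : ∀ l' ∈ Finset.range (j + 1), |η / (grid j l' - t)| ≤ η * (3 * j) := by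
        intro l' _
        have h2 : 1 / (3 * (j:ℝ)) ≤ |grid j l' - t| := by
          have h3 : grid j l' - t = ((3 * (l' : ℤ) - 3 * (l : ℤ) - (if b then 1 else 2) : ℤ) : ℝ) / (3 * j) := by
            rw [ht]; unfold grid tst
            cases b
            · simp only [Bool.false_eq_true, if_false]
              push_cast
              field_simp
              ring
            · simp only [if_true]
              push_cast
              field_simp
              ring
          rw [h3, abs_div, abs_of_pos (by positivity : (0:ℝ) < 3 * j)]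
          apply div_le_div_of_nonneg_right _ (by positivity)
          rw [← Int.cast_abs]
          have h4 : (1 : ℤ) ≤ |3 * (l' : ℤ) - 3 * (l : ℤ) - (if b then 1 else 2)| := by
            apply Int.one_le_abs
            cases b <;> simp <;> omega
          exact_mod_cast h4
        have h5 : 0 < |grid j l' - t| := lt_of_lt_of_le (by positivity) h2
        rw [abs_div, abs_of_pos hη0, div_le_iff₀ h5]
        have h6 : 1 ≤ (3 * (j:ℝ)) * |grid j l' - t| := by
          rw [div_le_iff₀ (by positivity)] at h2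
          linarith
        nlinarith
      calc |∑ l' ∈ Finset.range (j + 1), η / (grid j l' - t)|
          ≤ ∑ l' ∈ Finset.range (j + 1), |η / (grid j l' - t)| := Finset.abs_sum_le_sum_abs _ _
        _ ≤ ∑ l' ∈ Finset.range (j + 1), η * (3 * j) := Finset.sum_le_sum h1
        _ = (j + 1) * (η * (3 * j)) := by simp
        _ < ε / 4 := by
          rw [hη]
          have h7 : (0:ℝ) < 4 * (3 * j * (j + 1) + 1) := by positivity
          have h8 : ((j:ℝ) + 1) * (ε / (4 * (3 * j * (j + 1) + 1)) * (3 * j)) =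
            (ε * (3 * j * (j + 1))) / (4 * (3 * j * (j + 1) + 1)) := by ring
          rw [h8, div_lt_iff₀ h7]
          nlinarith
    unfold Fr
    rw [e1, e2]
    have e5 : ((∑ i ∈ Finset.range M, cf i / (node i - t)) + ε * (if (l, b).2 then 1 else -1) +
        ∑ l' ∈ Finset.range (j + 1), η / (grid j l' - t) - greal t) - ε * (if (l, b).2 then 1 else -1)
        = ((∑ i ∈ Finset.range M, cf i / (node i - t)) - greal t) +
          ∑ l' ∈ Finset.range (j + 1), η / (grid j l' - t) := by ring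
    rw [e5]
    calc _ ≤ |(∑ i ∈ Finset.range M, cf i / (node i - t)) - greal t| +
          |∑ l' ∈ Finset.range (j + 1), η / (grid j l' - t)| := abs_add_le _ _
      _ < ε / 2 := by linarith
  intro l hl
  constructor
  · have := key (l, true) (by rw [hS]; simp [hl])
    simp only [if_true, mul_one] at this
    rw [abs_lt] at this
    linarith [this.1]
  · have := key (l, false) (by rw [hS]; simp [hl])
    simp only [Bool.false_eq_true, if_false] at this
    rw [abs_lt] at this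
    linarith [this.2]


lemma grid_lt (j : ℕ) (hj : 0 < j) {a b : ℕ} : grid j a < grid j b ↔ a < b := by
  have hj' : (0:ℝ) < j := by exact_mod_cast hj
  unfold grid
  rw [div_lt_div_iff_of_pos_right hj']
  exact Nat.cast_lt

lemma grid_inj (j : ℕ) (hj : 0 < j) : Function.Injective (grid j) := by
  intro a b h
  rcases lt_trichotomy a b with h1 | h1 | h1
  · exact absurd h ((grid_lt j hj).mpr h1).ne
  · exact h1
  · exact absurd h ((grid_lt j hj).mpr h1).ne'

lemma grid_nonneg (j l : ℕ) : 0 ≤ grid j l := by unfold grid; positivity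

lemma grid_le_one (j l : ℕ) (hj : 0 < j) (hl : l ≤ j) : grid j l ≤ 1 := by
  have hj' : (0:ℝ) < j := by exact_mod_cast hj
  unfold grid
  rw [div_le_one hj']
  exact_mod_cast hl

lemma gap_zeros (j : ℕ) (hj : 0 < j) (wt : ℕ → ℝ) (M : ℕ) (η : ℝ) (hη : 0 < η) (l : ℕ) (hl : l < j)
    (hp : 0 < Fr wt M η j (tst j (l, true)) - greal (tst j (l, true)))
    (hn : Fr wt M η j (tst j (l, false)) - greal (tst j (l, false)) < 0) :
    ∃ z : Fin 3 → ℝ, StrictMono z ∧
      ∀ i, z i ∈ Ioo (grid j l) (grid j (l + 1)) ∧ Fr wt M η j (z i) = greal (z i) := by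
  have hj' : (0:ℝ) < j := by exact_mod_cast hj
  set R := ((Finset.range (j + 1)).erase l).erase (l + 1) with hR
  have hl1 : l ∈ Finset.range (j + 1) := Finset.mem_range.mpr (by omega)
  have hl2 : l + 1 ∈ (Finset.range (j + 1)).erase l := by
    rw [Finset.mem_erase]; exact ⟨by omega, Finset.mem_range.mpr (by omega)⟩
  set h : ℝ → ℝ := fun x => (∑ i ∈ Finset.range M, wt i / (node i - x)) +
    (∑ l' ∈ R, η / (grid j l' - x)) - greal x with hh
  have hgl : 0 ≤ grid j l := grid_nonneg j l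
  have hgl1 : grid j (l + 1) ≤ 1 := grid_le_one j (l + 1) hj (by omega)
  have hc : ContinuousOn h (Icc (grid j l) (grid j (l + 1))) := by
    apply ContinuousOn.sub
    · apply ContinuousOn.add
      · apply continuousOn_finsetSum
        intro i _
        apply ContinuousOn.div continuousOn_const (by fun_prop)
        intro x hx h0
        have := hx.1
        have h1 : (0:ℝ) ≤ i := Nat.cast_nonneg i
        unfold node at h0
        linarith
      · apply continuousOn_finsetSum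
        intro l' hl'
        apply ContinuousOn.div continuousOn_const (by fun_prop)
        intro x hx h0
        rw [hR, Finset.mem_erase, Finset.mem_erase] at hl'
        have h1 : grid j l' = x := by linarith
        rcases Nat.lt_or_ge l' l with h2 | h2
        · have := (grid_lt j hj).mpr h2
          linarith [hx.1]
        · have h3 : l + 1 < l' := by
            rcases hl' with ⟨ha, hb, _⟩
            omega
          have := (grid_lt j hj).mpr h3
          linarith [hx.2]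
    · apply greal_cont.mono
      intro x hx
      exact ⟨by linarith [hx.1], by linarith [hx.2]⟩
  have ht1 : grid j l < tst j (l, true) := by
    unfold grid tst
    simp only [if_true]
    apply div_lt_div_of_pos_right _ hj'
    linarith
  have ht2 : tst j (l, true) < tst j (l, false) := by
    unfold tst
    simp only [if_true, Bool.false_eq_true, if_false]
    apply div_lt_div_of_pos_right _ hj'
    linarith
  have ht3 : tst j (l, false) < grid j (l + 1) := by
    unfold grid tst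
    simp only [Bool.false_eq_true, if_false]
    apply div_lt_div_of_pos_right _ hj'
    push_cast
    linarith
  obtain ⟨z1, h1, z2, h2, z3, h3, e1, e2, e3⟩ := three_zeros (grid j l) (grid j (l + 1))
    (tst j (l, true)) (tst j (l, false)) η hη ht1 ht2 ht3 h hc
    (fun x => Fr wt M η j x - greal x)
    (by
      intro x _
      simp only [Fr, hh]
      rw [← Finset.add_sum_erase _ _ hl1, ← Finset.add_sum_erase _ _ hl2]
      ring)
    hp hn
  refine ⟨![z1, z2, z3], ?_, ?_⟩
  · intro a b hab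
    fin_cases a <;> fin_cases b <;> simp at hab ⊢
    · linarith [h1.2, h2.1]
    · linarith [h1.2, h2.1, h2.2, h3.1]
    · linarith [h2.2, h3.1]
  · intro i
    fin_cases i
    · exact ⟨⟨h1.1, by simp; linarith [h1.2]⟩, by simp; linarith [e1]⟩
    · exact ⟨⟨by simp; linarith [h2.1], by simp; linarith [h2.2]⟩, by simp; linarith [e2]⟩
    · exact ⟨⟨by simp; linarith [h3.1], h3.2⟩, by simp; linarith [e3]⟩

/-- pole set -/
noncomputable def pset (M j : ℕ) : Finset ℝ :=
  (Finset.range M).image node ∪ (Finset.range (j + 1)).image (grid j)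

/-- weights -/
noncomputable def wfun (wt : ℕ → ℝ) (η : ℝ) (p : ℝ) : ℝ := if p < 0 then wt ⌊-p - 1⌋₊ else η

lemma wfun_node (wt : ℕ → ℝ) (η : ℝ) (i : ℕ) : wfun wt η (node i) = wt i := by
  unfold wfun
  have h0 : (0:ℝ) ≤ i := Nat.cast_nonneg i
  rw [if_pos (by unfold node; linarith)]
  have : -node i - 1 = (i : ℝ) := by unfold node; ring
  rw [this, Nat.floor_natCast]

lemma wfun_grid (wt : ℕ → ℝ) (η : ℝ) (j l : ℕ) : wfun wt η (grid j l) = η := by
  unfold wfun
  rw [if_neg (not_lt.mpr (grid_nonneg j l))]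

lemma sum_pset (wt : ℕ → ℝ) (M : ℕ) (η : ℝ) (j : ℕ) (hj : 0 < j) (x : ℝ) :
    ∑ p ∈ pset M j, wfun wt η p / (p - x) = Fr wt M η j x := by
  unfold pset Fr
  rw [Finset.sum_union, Finset.sum_image node_inj.injOn, Finset.sum_image (grid_inj j hj).injOn]
  · congr 1
    · apply Finset.sum_congr rfl; intro i _; rw [wfun_node]
    · apply Finset.sum_congr rfl; intro i _; rw [wfun_grid]
  · rw [Finset.disjoint_left]
    intro p hp hp'
    rw [Finset.mem_image] at hp hp'
    obtain ⟨i, _, rfl⟩ := hp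
    obtain ⟨l, _, hl⟩ := hp'
    have h1 := grid_nonneg j l
    have h0 : (0:ℝ) ≤ i := Nat.cast_nonneg i
    rw [hl] at h1
    unfold node at h1
    linarith

lemma wfun_pos (wt : ℕ → ℝ) (η : ℝ) (hwt : ∀ i, 0 < wt i) (hη : 0 < η) (p : ℝ) : 0 < wfun wt η p := by
  unfold wfun
  split_ifs
  · exact hwt _
  · exact hη

lemma mem_pset (M j : ℕ) (p : ℝ) : p ∈ pset M j → p ≤ -1 ∨ ∃ l ≤ j, grid j l = p := by
  unfold pset
  rw [Finset.mem_union, Finset.mem_image, Finset.mem_image]
  rintro (⟨i, _, rfl⟩ | ⟨l, hl, rfl⟩)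
  · left
    have h0 : (0:ℝ) ≤ i := Nat.cast_nonneg i
    unfold node; linarith
  · right
    exact ⟨l, by have := Finset.mem_range.mp hl; omega, rfl⟩

lemma grid_mem_pset (M j l : ℕ) (hl : l ≤ j) : grid j l ∈ pset M j := by
  unfold pset
  rw [Finset.mem_union, Finset.mem_image, Finset.mem_image]
  right
  exact ⟨l, Finset.mem_range.mpr (by omega), rfl⟩


lemma grid_gt_iff (J : ℕ) (hJ : 0 < J) (a : ℝ) (ha : 0 ≤ a) (l : ℕ) :
    a < grid J l ↔ ⌊a * J⌋₊ < l := by
  have hJ' : (0:ℝ) < J := by exact_mod_cast hJ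
  unfold grid
  rw [lt_div_iff₀ hJ', Nat.floor_lt (by positivity)]

lemma grid_lt_iff (J : ℕ) (hJ : 0 < J) (b : ℝ) (l : ℕ) :
    grid J l < b ↔ l < ⌈b * J⌉₊ := by
  have hJ' : (0:ℝ) < J := by exact_mod_cast hJ
  unfold grid
  rw [div_lt_iff₀ hJ', Nat.lt_ceil]

lemma mem_T (M J : ℕ) (hJ : 0 < J) (a b : ℝ) (ha : 0 ≤ a) (hb : b ≤ 1) (p : ℝ) :
    p ∈ (Finset.Ioo ⌊a * J⌋₊ ⌈b * J⌉₊).image (grid J) ↔ p ∈ pset M J ∧ (a < p ∧ p < b) := by
  rw [Finset.mem_image]
  constructor
  · rintro ⟨l, hl, rfl⟩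
    rw [Finset.mem_Ioo] at hl
    have h1 : a < grid J l := (grid_gt_iff J hJ a ha l).mpr hl.1
    have h2 : grid J l < b := (grid_lt_iff J hJ b l).mpr hl.2
    refine ⟨grid_mem_pset M J l ?_, h1, h2⟩
    have h3 : grid J l < 1 := by linarith
    have hJ' : (0:ℝ) < J := by exact_mod_cast hJ
    unfold grid at h3
    rw [div_lt_one hJ'] at h3
    exact_mod_cast h3.le
  · rintro ⟨hp, h1, h2⟩
    rcases mem_pset M J p hp with h | ⟨l, _, rfl⟩
    · linarith
    · exact ⟨l, by rw [Finset.mem_Ioo]; exact ⟨(grid_gt_iff J hJ a ha l).mp h1,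
        (grid_lt_iff J hJ b l).mp h2⟩, rfl⟩

lemma poleCount_eq (wt : ℕ → ℝ) (M : ℕ) (η : ℝ) (J : ℕ) (hJ : 0 < J) (hwt : ∀ i, 0 < wt i)
    (hη : 0 < η) (a b : ℝ) (ha : 0 ≤ a) (hb : b ≤ 1) (U : Set ℂ)
    (hU : ∀ x : ℝ, (x : ℂ) ∈ U ↔ a < x ∧ x < b) :
    poleCount (ratl (pset M J) (wfun wt η)) U = ⌈b * J⌉₊ - ⌊a * J⌋₊ - 1 := by
  rw [poleCount_ratl (pset M J) (wfun wt η) (fun p _ => wfun_pos wt η hwt hη p) U
    ((Finset.Ioo ⌊a * J⌋₊ ⌈b * J⌉₊).image (grid J))
    (by intro p; rw [mem_T M J hJ a b ha hb p, hU p]),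
    Finset.card_image_of_injective _ (grid_inj J hJ), Nat.card_Ioo]

lemma count_bounds (J : ℕ) (hJ : 0 < J) (a b : ℝ) (ha : 0 ≤ a) (hab : a < b) :
    (b - a) * J - 1 ≤ ((⌈b * J⌉₊ - ⌊a * J⌋₊ - 1 : ℕ) : ℝ) ∧
    ((⌈b * J⌉₊ - ⌊a * J⌋₊ - 1 : ℕ) : ℝ) ≤ (b - a) * J + 1 := by
  have hJ' : (0:ℝ) < J := by exact_mod_cast hJ
  have h1 : (⌊a * J⌋₊ : ℝ) ≤ a * J := Nat.floor_le (by positivity)
  have h2 : a * J < ⌊a * J⌋₊ + 1 := Nat.lt_floor_add_one _
  have h3 : b * J ≤ ⌈b * J⌉₊ := Nat.le_ceil _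
  have h4 : (⌈b * J⌉₊ : ℝ) < b * J + 1 := Nat.ceil_lt_add_one (by nlinarith)
  have h5 : a * J < b * J := by nlinarith
  have h6 : ⌊a * J⌋₊ + 1 ≤ ⌈b * J⌉₊ := by
    have : (⌊a * J⌋₊ : ℝ) < ⌈b * J⌉₊ := by linarith
    exact_mod_cast this
  have h7 : ((⌈b * J⌉₊ - ⌊a * J⌋₊ - 1 : ℕ) : ℝ) = (⌈b * J⌉₊ : ℝ) - ⌊a * J⌋₊ - 1 := by
    rw [Nat.cast_sub (by omega), Nat.cast_sub (by omega)]
    simp
  rw [h7]
  constructor <;> nlinarith

lemma zeroCount_ge (wt : ℕ → ℝ) (M : ℕ) (η : ℝ) (J : ℕ) (hJ : 0 < J)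
    (hη : 0 < η)
    (hs : ∀ l, l < J → 0 < Fr wt M η J (tst J (l, true)) - greal (tst J (l, true)) ∧
        Fr wt M η J (tst J (l, false)) - greal (tst J (l, false)) < 0)
    (a b : ℝ) (ha : 0 ≤ a) (hb : b ≤ 1) (U : Set ℂ)
    (hUb : Bornology.IsBounded U) (hUD : closure U ⊆ Dom)
    (hU : ∀ x : ℝ, (x : ℂ) ∈ U ↔ a < x ∧ x < b)
    (htop : ∀ z ∈ Dom, meromorphicOrderAt
      (fun z => ratl (pset M J) (wfun wt η) z - gfun z) z ≠ ⊤)
    (hmer : MeromorphicOn (fun z => ratl (pset M J) (wfun wt η) z - gfun z) Dom) :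
    3 * (⌊b * J⌋₊ - ⌈a * J⌉₊) ≤
      zeroCount (fun z => ratl (pset M J) (wfun wt η) z - gfun z) U := by
  classical
  have hJ' : (0:ℝ) < J := by exact_mod_cast hJ
  have hex : ∀ l : ℕ, ∃ z : Fin 3 → ℝ, l < J → StrictMono z ∧
      ∀ i, z i ∈ Ioo (grid J l) (grid J (l + 1)) ∧ Fr wt M η J (z i) = greal (z i) := by
    intro l
    by_cases hl : l < J
    · obtain ⟨z, hz⟩ := gap_zeros J hJ wt M η hη l hl (hs l hl).1 (hs l hl).2
      exact ⟨z, fun _ => hz⟩
    · exact ⟨fun _ => 0, fun h => absurd h hl⟩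
  choose z hz using hex
  set idx : Finset (ℕ × Fin 3) := (Finset.Ico ⌈a * J⌉₊ ⌊b * J⌋₊) ×ˢ Finset.univ with hidx
  have hmem : ∀ k ∈ idx, k.1 < J ∧ a ≤ grid J k.1 ∧ grid J (k.1 + 1) ≤ b := by
    rintro ⟨l, i⟩ hk
    rw [hidx, Finset.mem_product, Finset.mem_Ico] at hk
    obtain ⟨⟨h1, h2⟩, _⟩ := hk
    have h3 : a * J ≤ l := Nat.ceil_le.mp h1
    have hbJ : (0:ℝ) ≤ b * J := by
      by_contra hneg
      push Not at hneg
      rw [Nat.floor_of_nonpos hneg.le] at h2
      omega
    have h4 : ((l + 1 : ℕ) : ℝ) ≤ b * J := (Nat.le_floor_iff hbJ).mp h2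
    refine ⟨?_, ?_, ?_⟩
    · have h5 : b * J ≤ J := by nlinarith
      have h6 : ((l + 1 : ℕ) : ℝ) ≤ J := le_trans h4 h5
      have h7 : l + 1 ≤ J := by exact_mod_cast h6
      exact h7
    · unfold grid
      rw [le_div_iff₀ hJ']
      exact h3
    · unfold grid
      rw [div_le_iff₀ hJ']
      exact h4
  set A : Finset ℂ := idx.image (fun k => ((z k.1 k.2 : ℝ) : ℂ)) with hA
  have hcard : A.card = 3 * (⌊b * J⌋₊ - ⌈a * J⌉₊) := by
    rw [hA, Finset.card_image_of_injOn, hidx, Finset.card_product, Nat.card_Ico, Finset.card_univ,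
      Fintype.card_fin, mul_comm]
    rintro ⟨l, i⟩ hk ⟨l', i'⟩ hk' heq
    have hk1 := hmem _ hk
    have hk1' := hmem _ hk'
    have heq' : z l i = z l' i' := Complex.ofReal_injective heq
    obtain ⟨hm, hI⟩ := hz l hk1.1
    obtain ⟨hm', hI'⟩ := hz l' hk1'.1
    have hll : l = l' := by
      rcases lt_trichotomy l l' with h | h | h
      · exfalso
        have h1 := (hI i).1.2
        have h2 := (hI' i').1.1
        have h3 : grid J (l + 1) ≤ grid J l' := by
          rcases (Nat.succ_le_of_lt h).eq_or_lt with h4 | h4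
          · exact le_of_eq (congrArg (grid J) h4)
          · exact ((grid_lt J hJ).mpr h4).le
        linarith
      · exact h
      · exfalso
        have h1 := (hI i).1.1
        have h2 := (hI' i').1.2
        have h3 : grid J (l' + 1) ≤ grid J l := by
          rcases (Nat.succ_le_of_lt h).eq_or_lt with h4 | h4
          · exact le_of_eq (congrArg (grid J) h4)
          · exact ((grid_lt J hJ).mpr h4).le
        linarith
    subst hll
    have : i = i' := hm.injective heq'
    rw [this]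
  rw [← hcard]
  unfold zeroCount
  have hzU : ∀ w ∈ A, ∃ x : ℝ, w = (x : ℂ) ∧ a < x ∧ x < b ∧ (∀ p ∈ pset M J, p ≠ x) ∧
      Fr wt M η J x = greal x := by
    intro w hw
    rw [hA, Finset.mem_image] at hw
    obtain ⟨⟨l, i⟩, hk, rfl⟩ := hw
    obtain ⟨h1, h2, h3⟩ := hmem _ hk
    obtain ⟨hm, hI⟩ := hz l h1
    have hIi := hI i
    refine ⟨z l i, rfl, by linarith [hIi.1.1], by linarith [hIi.1.2], ?_, hIi.2⟩
    intro p hp hpx
    have h0 := grid_nonneg J l
    rcases mem_pset M J p hp with h | ⟨l', _, rfl⟩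
    · linarith [hIi.1.1]
    · have h4 : grid J l < grid J l' := by rw [hpx]; exact hIi.1.1
      have h5 : grid J l' < grid J (l + 1) := by rw [hpx]; exact hIi.1.2
      have h6 := (grid_lt J hJ).mp h4
      have h7 := (grid_lt J hJ).mp h5
      omega
  apply card_le_finsum
  · have hfin := finite_support _ U hmer hUb hUD
    apply hfin.subset
    rintro w ⟨hwU, hw⟩
    refine ⟨hwU, ?_⟩
    intro h0
    apply hw
    simp only [h0]
    rfl
  · intro w hw
    obtain ⟨x, rfl, h1, h2, _⟩ := hzU w hw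
    exact (hU x).mpr ⟨h1, h2⟩
  · intro w hw
    obtain ⟨x, rfl, h1, h2, h3, h4⟩ := hzU w hw
    have hxU : (x : ℂ) ∈ U := (hU x).mpr ⟨h1, h2⟩
    have hxD : (x : ℂ) ∈ Dom := hUD (subset_closure hxU)
    apply one_le_of_zero
    · apply AnalyticAt.fun_sub
      · apply ratl_analyticAt
        intro p hp hpx
        exact h3 p hp (Complex.ofReal_injective hpx)
      · exact gfun_analytic _ hxD
    · rw [ratl_ofReal, sum_pset wt M η J hJ x, gfun_ofReal, h4, sub_self]
    · exact htop _ hxD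

/-- Main theorem (see the hand-in for the explanation of the statement). -/
theorem main : ∃ (m : ℕ → ℂ → ℂ) (g : ℂ → ℂ),
    (∀ j, IsNevanlinna (m j)) ∧
    AnalyticOnNhd ℂ g {z : ℂ | -1 / 2 < z.re} ∧
    (∀ x : ℝ, -1 / 2 < x → (g (x : ℂ)).im = 0) ∧
    (∀ a b : ℝ, 0 ≤ a → a < b → b ≤ 1 →
      Tendsto (fun j => poleCount (m j) ((fun x : ℝ => (x : ℂ)) '' Ioo a b)) atTop atTop ∧
      Tendsto (fun j : ℕ => (poleCount (m j) ((fun x : ℝ => (x : ℂ)) '' Ioo a b) : ℝ) / (j : ℝ))
        atTop (𝓝 (b - a))) ∧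
    (∀ j, ∀ z : ℂ, -1 / 2 < z.re → meromorphicOrderAt (fun z => m j z - g z) z ≠ ⊤) ∧
    (∀ (a b : ℝ) (U : Set ℂ), 0 ≤ a → a < b → b ≤ 1 →
      IsOpen U → Bornology.IsBounded U → closure U ⊆ {z : ℂ | -1 / 2 < z.re} →
      (∀ x : ℝ, (x : ℂ) ∈ U ↔ a < x ∧ x < b) →
      (∀ j, {z ∈ U | (meromorphicOrderAt (fun z => m j z - g z) z).untop₀ ≠ 0}.Finite) ∧
      (∀ j : ℕ, 2 * (b - a) * (j : ℝ) - 7 ≤
        (zeroCount (fun z => m j z - g z) U : ℝ) - (poleCount (m j) U : ℝ))) := by
  have hcon : ∀ j : ℕ, ∃ (wt : ℕ → ℝ) (M : ℕ) (η : ℝ), (∀ i, 0 < wt i) ∧ 0 < η ∧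
      ∀ l, l < j + 1 → 0 < Fr wt M η (j + 1) (tst (j + 1) (l, true)) - greal (tst (j + 1) (l, true)) ∧
        Fr wt M η (j + 1) (tst (j + 1) (l, false)) - greal (tst (j + 1) (l, false)) < 0 :=
    fun j => construct (j + 1) (Nat.succ_pos j)
  choose wt M η hwt hη hs using hcon
  have hmer : ∀ j, MeromorphicOn
      (fun z => ratl (pset (M j) (j + 1)) (wfun (wt j) (η j)) z - gfun z) Dom := by
    intro j z hz
    exact (ratl_meromorphicAt _ _ z).fun_sub (gfun_analytic z hz).meromorphicAt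
  have htop : ∀ j, ∀ z ∈ Dom, meromorphicOrderAt
      (fun z => ratl (pset (M j) (j + 1)) (wfun (wt j) (η j)) z - gfun z) z ≠ ⊤ := by
    intro j z hz
    have h0D : ((0 : ℝ) : ℂ) ∈ Dom := by
      change -1 / 2 < (((0:ℝ) : ℂ)).re
      norm_num
    have h0S : (0 : ℝ) ∈ pset (M j) (j + 1) := by
      have := grid_mem_pset (M j) (j + 1) 0 (Nat.zero_le _)
      simpa [grid] using this
    have h1 := ratl_order_pole (pset (M j) (j + 1)) (wfun (wt j) (η j)) gfun 0 h0S
      (wfun_pos (wt j) (η j) (hwt j) (hη j) 0).ne' (gfun_analytic _ h0D)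
    apply (hmer j).meromorphicOrderAt_ne_top_of_isPreconnected Dom_conn h0D hz
    rw [h1]
    exact WithTop.coe_ne_top
  refine ⟨fun j => ratl (pset (M j) (j + 1)) (wfun (wt j) (η j)), gfun, ?_, ?_, ?_, ?_, ?_, ?_⟩
  · intro j
    apply ratl_nevanlinna
    · exact ⟨_, grid_mem_pset (M j) (j + 1) 0 (Nat.zero_le _)⟩
    · intro p _
      exact wfun_pos (wt j) (η j) (hwt j) (hη j) p
  · exact gfun_analytic
  · intro x _
    rw [gfun_ofReal]
    simp
  · intro a b ha hab hb
    have hU : ∀ x : ℝ, (x : ℂ) ∈ ((fun x : ℝ => (x : ℂ)) '' Ioo a b) ↔ a < x ∧ x < b := by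
      intro x
      constructor
      · rintro ⟨y, hy, hyx⟩
        have : y = x := Complex.ofReal_injective hyx
        rw [← this]; exact hy
      · intro hx
        exact ⟨x, hx, rfl⟩
    have hP : ∀ j : ℕ, poleCount (ratl (pset (M j) (j + 1)) (wfun (wt j) (η j)))
        ((fun x : ℝ => (x : ℂ)) '' Ioo a b) = ⌈b * ((j + 1 : ℕ) : ℝ)⌉₊ - ⌊a * ((j + 1 : ℕ) : ℝ)⌋₊ - 1 :=
      fun j => poleCount_eq (wt j) (M j) (η j) (j + 1) (Nat.succ_pos j) (hwt j) (hη j) a b ha hb _ hU
    have hB := fun j : ℕ => count_bounds (j + 1) (Nat.succ_pos j) a b ha hab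
    have hlin : Tendsto (fun j : ℕ => (b - a) * ((j + 1 : ℕ) : ℝ) - 1) atTop atTop := by
      apply tendsto_atTop_add_const_right
      apply Tendsto.const_mul_atTop (by linarith)
      exact tendsto_natCast_atTop_atTop.comp (tendsto_add_atTop_nat 1)
    constructor
    · simp only [hP]
      rw [← tendsto_natCast_atTop_iff (R := ℝ)]
      exact tendsto_atTop_mono (fun j => (hB j).1) hlin
    · simp only [hP]
      have hlo : Tendsto (fun j : ℕ => ((b - a) * ((j + 1 : ℕ) : ℝ) - 1) / (j : ℝ)) atTop (𝓝 (b - a)) := by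
        have h1 : Tendsto (fun j : ℕ => (b - a) + (b - a - 1) / (j : ℝ)) atTop (𝓝 ((b - a) + 0)) :=
          tendsto_const_nhds.add (tendsto_const_div_atTop_nhds_zero_nat _)
        rw [add_zero] at h1
        apply h1.congr'
        filter_upwards [eventually_gt_atTop 0] with j hj
        have : (j : ℝ) ≠ 0 := by exact_mod_cast hj.ne'
        push_cast
        field_simp
        ring
      have hhi : Tendsto (fun j : ℕ => ((b - a) * ((j + 1 : ℕ) : ℝ) + 1) / (j : ℝ)) atTop (𝓝 (b - a)) := by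
        have h1 : Tendsto (fun j : ℕ => (b - a) + (b - a + 1) / (j : ℝ)) atTop (𝓝 ((b - a) + 0)) :=
          tendsto_const_nhds.add (tendsto_const_div_atTop_nhds_zero_nat _)
        rw [add_zero] at h1
        apply h1.congr'
        filter_upwards [eventually_gt_atTop 0] with j hj
        have : (j : ℝ) ≠ 0 := by exact_mod_cast hj.ne'
        push_cast
        field_simp
        ring
      apply tendsto_of_tendsto_of_tendsto_of_le_of_le hlo hhi
      · intro j
        exact div_le_div_of_nonneg_right (hB j).1 (Nat.cast_nonneg j)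
      · intro j
        exact div_le_div_of_nonneg_right (hB j).2 (Nat.cast_nonneg j)
  · intro j z hz
    exact htop j z hz
  · intro a b U ha hab hb _ hUb hUD hU
    refine ⟨fun j => finite_support _ U (hmer j) hUb hUD, ?_⟩
    intro j
    have h1 := zeroCount_ge (wt j) (M j) (η j) (j + 1) (Nat.succ_pos j) (hη j) (hs j)
      a b ha hb U hUb hUD hU (htop j) (hmer j)
    have h2 := poleCount_eq (wt j) (M j) (η j) (j + 1) (Nat.succ_pos j) (hwt j) (hη j) a b ha hb U hU
    have h3 := (count_bounds (j + 1) (Nat.succ_pos j) a b ha hab).2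
    rw [← h2] at h3
    have h4 : (3 : ℝ) * ((b * ((j + 1 : ℕ) : ℝ) - 1) - (a * ((j + 1 : ℕ) : ℝ) + 1)) ≤
        ((3 * (⌊b * ((j + 1 : ℕ) : ℝ)⌋₊ - ⌈a * ((j + 1 : ℕ) : ℝ)⌉₊) : ℕ) : ℝ) := by
      have e1 : b * ((j + 1 : ℕ) : ℝ) < ⌊b * ((j + 1 : ℕ) : ℝ)⌋₊ + 1 := Nat.lt_floor_add_one _
      have e2 : (⌈a * ((j + 1 : ℕ) : ℝ)⌉₊ : ℝ) < a * ((j + 1 : ℕ) : ℝ) + 1 :=
        Nat.ceil_lt_add_one (by positivity)
      have e3 : (⌊b * ((j + 1 : ℕ) : ℝ)⌋₊ : ℝ) - ⌈a * ((j + 1 : ℕ) : ℝ)⌉₊ ≤
          ((⌊b * ((j + 1 : ℕ) : ℝ)⌋₊ - ⌈a * ((j + 1 : ℕ) : ℝ)⌉₊ : ℕ) : ℝ) := by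
        rw [sub_le_iff_le_add]
        exact_mod_cast le_tsub_add
      push_cast at e1 e2 e3 ⊢
      nlinarith
    have h5 : ((3 * (⌊b * ((j + 1 : ℕ) : ℝ)⌋₊ - ⌈a * ((j + 1 : ℕ) : ℝ)⌉₊) : ℕ) : ℝ) ≤
        (zeroCount (fun z => ratl (pset (M j) (j + 1)) (wfun (wt j) (η j)) z - gfun z) U : ℝ) := by
      exact_mod_cast h1
    push_cast at h3 h4 h5 ⊢
    nlinarith

end Pool.Agent.Helper20_Nevanlinna
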