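import Mathlib
import Pool.Agent.Helper20_Nevanlinna.Defs
import Pool.Agent.Helper20_Nevanlinna.Proof

/-!
# Zeros versus poles for sequences of Nevanlinna functions: a counterexample

The problem asks whether `Z_j(U) - P_j(U)` stays bounded, where `P_j(U)` is the number of poles in
`U` of the Nevanlinna function `m_j` and `Z_j(U)` is the number of zeros of `m_j - g` in `U`, the
poles becoming infinitely dense on an interval `I`.

We disprove this.  The function `g` is
`g(z) = sum_i 2^(-i) / (-(i+1) - z)`, real analytic on `(-1/2, oo)` and itself a Nevanlinna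
function.  The functions `m_j` are rational: the poles of `g` with slightly changed positive
weights (the change is an interpolant, obtained by Lagrange interpolation, that alternates in sign
in every cell of the grid `(1/(j+1)) Z`), plus tiny positive masses at the grid points in `[0,1]`.
In every cell of the grid `m_j - g` goes from `-oo` up to a positive value, down to a negative
value and up to `+oo`, so it has three zeros there, while there is only one pole per cell.
-/
open Filter Topology Set Pool.Agent.Helper20_Nevanlinna

namespace Pool.Agent.Helper20_Nevanlinna.ZerosVersusPoles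

/-- **Disproof of the question.**  There are Nevanlinna functions `m j` and a function `g`, analytic
on the half plane `Re z > -1/2` and real on the real axis there, such that, with `I = (0,1)`:

* for every subinterval `(a,b)` of `(0,1)` the number of poles of `m j` in `(a,b)` tends to
  infinity (and, divided by `j`, tends to `b - a`);
* `m j - g` is nowhere locally identically zero, so its zeros are isolated;
* for every subinterval `J = (a,b)` of `(0,1)` and every bounded open `U` with
  `closure U ⊆ {Re z > -1/2}` and `U ∩ ℝ = J` (for instance the disc with diameter `J`),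
  `m j - g` has finitely many zeros in `U` and
  `Z_j(U) - P_j(U) ≥ 2 (b - a) j - 7` for all `j`; so the difference is unbounded.
-/
theorem result : ∃ (m : ℕ → ℂ → ℂ) (g : ℂ → ℂ),
    (∀ j, IsNevanlinna (m j)) ∧
    AnalyticOnNhd ℂ g {z : ℂ | -1 / 2 < z.re} ∧
    (∀ x : ℝ, -1 / 2 < x → (g (x : ℂ)).im = 0) ∧
    (∀ a b : ℝ, 0 ≤ a → a < b → b ≤ 1 →
      Tendsto (fun j => poleCount (m j) ((fun x : ℝ => (x : ℂ)) '' Ioo a b)) atTop atTop ∧
      Tendsto (fun j : ℕ => (poleCount (m j) ((fun x : ℝ => (x : ℂ)) '' Ioo a b) : ℝ) / (j : ℝ))
        atTop (𝓝 (b - a))) ∧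
    (∀ j, ∀ z : ℂ, -1 / 2 < z.re → meromorphicOrderAt (fun z => m j z - g z) z ≠ ⊤) ∧
    (∀ (a b : ℝ) (U : Set ℂ), 0 ≤ a → a < b → b ≤ 1 →
      IsOpen U → Bornology.IsBounded U → closure U ⊆ {z : ℂ | -1 / 2 < z.re} →
      (∀ x : ℝ, (x : ℂ) ∈ U ↔ a < x ∧ x < b) →
      (∀ j, {z ∈ U | (meromorphicOrderAt (fun z => m j z - g z) z).untop₀ ≠ 0}.Finite) ∧
      (∀ j : ℕ, 2 * (b - a) * (j : ℝ) - 7 ≤
        (zeroCount (fun z => m j z - g z) U : ℝ) - (poleCount (m j) U : ℝ))) :=
  Pool.Agent.Helper20_Nevanlinna.main

end Pool.Agent.Helper20_Nevanlinna.ZerosVersusPoles
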